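import Mathlib

/-!
Convex polygons and multiplicities of their intervertex distances.
-/

set_option autoImplicit false

namespace Pool.Agent.Helper14.Poly

/-- The Euclidean plane. -/
abbrev Plane : Type := EuclideanSpace ℝ (Fin 2)

/-- `C` is the vertex set of a convex `n`-gon: it has `n` points and no point of `C` lies in the
convex hull of the other points of `C` (so each point is a vertex of the hull and no three points
of `C` are collinear). -/
def IsConvexPolygon (n : ℕ) (C : Finset Plane) : Prop :=
  C.card = n ∧ ∀ p ∈ C, p ∉ convexHull ℝ ((C : Set Plane) \ {p})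

open Classical in
/-- The number of (unordered) pairs of distinct points of `C` at distance `d`: half of the number
of ordered pairs. -/
noncomputable def mult (C : Finset Plane) (d : ℝ) : ℕ :=
  (C.offDiag.filter (fun z => dist z.1 z.2 = d)).card / 2

/-- The number `r₂(n)`: the largest `m` such that some convex `n`-gon has two different
distances each occurring at least `m` times, that is, the largest multiplicity of a second most
frequent distance of a convex `n`-gon. -/
noncomputable def r₂ (n : ℕ) : ℕ :=
  sSup {m : ℕ | ∃ C : Finset Plane, IsConvexPolygon n C ∧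
    ∃ d₁ d₂ : ℝ, d₁ ≠ d₂ ∧ m ≤ mult C d₁ ∧ m ≤ mult C d₂}

theorem mult_le {C : Finset Plane} {d : ℝ} : mult C d ≤ C.card * C.card := by
  classical
  unfold mult
  refine (Nat.div_le_self _ _).trans ?_
  refine (Finset.card_le_card (Finset.filter_subset _ _)).trans ?_
  rw [Finset.offDiag_card]
  exact Nat.sub_le _ _

theorem r₂_bdd (n : ℕ) : BddAbove {m : ℕ | ∃ C : Finset Plane, IsConvexPolygon n C ∧
    ∃ d₁ d₂ : ℝ, d₁ ≠ d₂ ∧ m ≤ mult C d₁ ∧ m ≤ mult C d₂} := by
  refine ⟨n * n, ?_⟩
  rintro m ⟨C, hC, d₁, d₂, -, h1, -⟩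
  have := h1.trans mult_le
  rwa [hC.1] at this

theorem le_r₂ {n m : ℕ} {C : Finset Plane} (hC : IsConvexPolygon n C) {d₁ d₂ : ℝ}
    (h : d₁ ≠ d₂) (h1 : m ≤ mult C d₁) (h2 : m ≤ mult C d₂) : m ≤ r₂ n :=
  le_csSup (r₂_bdd n) ⟨C, hC, d₁, d₂, h, h1, h2⟩

/-- A point that strictly maximises a linear functional is not in the hull of the others. -/
theorem not_mem_hull {S : Set Plane} {p : Plane} (u v : ℝ)
    (h : ∀ q ∈ S, u * q 0 + v * q 1 < u * p 0 + v * p 1) : p ∉ convexHull ℝ S := by
  intro hp
  have hconv : Convex ℝ {q : Plane | u * q 0 + v * q 1 < u * p 0 + v * p 1} := by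
    have hl : IsLinearMap ℝ (fun q : Plane => u * q 0 + v * q 1) := by
      constructor
      · intro x y
        simp only [PiLp.add_apply]
        ring
      · intro c x
        simp only [PiLp.smul_apply, smul_eq_mul]
        ring
    exact convex_halfSpace_lt hl _
  have h2 : p ∈ {q : Plane | u * q 0 + v * q 1 < u * p 0 + v * p 1} :=
    convexHull_min (s := S) (fun q hq => h q hq) hconv hp
  exact lt_irrefl _ (show u * p 0 + v * p 1 < u * p 0 + v * p 1 from h2)

end Pool.Agent.Helper14.Poly
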