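import Mathlib
import Pool.Agent.Helper14.Poly.Defs

/-!
A convex polygon with eleven vertices in which two distances occur twelve times each.
-/

set_option autoImplicit false

namespace Pool.Agent.Helper14.Poly

open Real

/-- `cos 36°`. -/
noncomputable def g : ℝ := (1 + √5) / 4
/-- `sin 36°`. -/
noncomputable def r : ℝ := √(3 / 4 - g / 2)
/-- `√3`. -/
noncomputable def s : ℝ := √3
/-- `cos 6°`. -/
noncomputable def a : ℝ := (s * g + r) / 2
/-- `cos 18°`. -/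
noncomputable def b : ℝ := 2 * r * g
/-- `cos 24°`. -/
noncomputable def h : ℝ := s * a - g

theorem hg : g ^ 2 = g / 2 + 1 / 4 := by
  unfold g
  have h5 : (√5) ^ 2 = 5 := Real.sq_sqrt (by norm_num)
  nlinarith [h5]

theorem g_lo : 0.80901 < g := by
  unfold g
  have : (2.23606 : ℝ) < √5 := by
    rw [Real.lt_sqrt (by norm_num)]; norm_num
  linarith

theorem g_hi : g < 0.80902 := by
  unfold g
  have : √5 < (2.23607 : ℝ) := by
    rw [Real.sqrt_lt' (by norm_num)]; norm_num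
  linarith

theorem hr : r ^ 2 = 3 / 4 - g / 2 := by
  unfold r
  exact Real.sq_sqrt (by linarith [g_hi])

theorem r_lo : 0.58778 < r := by
  unfold r
  rw [Real.lt_sqrt (by norm_num)]
  linarith [g_hi]

theorem r_hi : r < 0.58779 := by
  unfold r
  rw [Real.sqrt_lt' (by norm_num)]
  linarith [g_lo]

theorem hs : s ^ 2 = 3 := by
  unfold s
  exact Real.sq_sqrt (by norm_num)

theorem s_lo : 1.73205 < s := by
  unfold s
  rw [Real.lt_sqrt (by norm_num)]; norm_num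

theorem s_hi : s < 1.73206 := by
  unfold s
  rw [Real.sqrt_lt' (by norm_num)]; norm_num

theorem a_lo : 0.9945 < a := by
  unfold a
  nlinarith [g_lo, r_lo, s_lo]

theorem a_hi : a < 0.9946 := by
  unfold a
  nlinarith [g_hi, r_hi, s_hi, g_lo, s_lo]

theorem b_lo : 0.951 < b := by
  unfold b
  nlinarith [g_lo, r_lo]

theorem b_hi : b < 0.9511 := by
  unfold b
  nlinarith [g_hi, r_hi, g_lo, r_lo]

theorem h_lo : 0.9134 < h := by
  unfold h
  nlinarith [g_hi, a_lo, s_lo]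

theorem h_hi : h < 0.9137 := by
  unfold h
  nlinarith [g_lo, a_hi, s_hi, a_lo, s_lo]

theorem ha : 2 * a = s * g + r := by
  unfold a
  ring

theorem hb : b = 2 * r * g := rfl

theorem hh : h = s * a - g := rfl

theorem R2 : b ^ 2 + (g - 1 / 2) ^ 2 = 1 := by
  linear_combination 4 * g ^ 2 * hr + (3 - 2 * g) * hg + (b + 2 * r * g) * hb

theorem R1 : a ^ 2 + (h - g) ^ 2 = 1 := by
  rw [hh]
  linear_combination hg + hr + (a ^ 2 - g ^ 2) * hs + (2 * a - s * g + r) * ha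

theorem R3 : (a + b) ^ 2 + (h - 1 / 2) ^ 2 = (2 * a) ^ 2 := by
  rw [hh]
  linear_combination R2 + a ^ 2 * hs + 2 * a * hb + (-4 + 4 * s * a - 6 * g) * hg + 2 * g * hr
    - 2 * g ^ 3 * hs + 2 * g * (r - s * g) * ha

theorem R4 : (b + s / 2) ^ 2 + g ^ 2 = (2 * a) ^ 2 := by
  linear_combination R2 + s * hb + (1 / 4 - g ^ 2) * hs - (2 * a + s * g + r) * ha - hr - 3 * hg

theorem R5 : a ^ 2 + (g + h) ^ 2 = (2 * a) ^ 2 := by
  rw [hh]
  linear_combination a ^ 2 * hs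

theorem R6 : (s / 2) ^ 2 + (1 / 2) ^ 2 = 1 := by
  linear_combination hs / 4

/-- The abscissas of the eleven vertices. -/
noncomputable def X : Fin 11 → ℝ :=
  ![-(a + b), -a, 0, a, a + b, a + b + s / 2, a + b, a, 0, -a, -(a + b)]

/-- The ordinates of the eleven vertices. -/
noncomputable def Y : Fin 11 → ℝ :=
  ![-(1 / 2), -g, -h, -g, -(1 / 2), 0, 1 / 2, g, h, g, 1 / 2]

/-- The vertices. -/
noncomputable def P (i : Fin 11) : Plane := !₂[X i, Y i]

/-- Directions in which the vertices are extreme. -/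
def U : Fin 11 → ℝ := ![-4, -1, 0, 1, 4, 1, 4, 1, 0, -1, -4]

/-- Directions in which the vertices are extreme. -/
def V : Fin 11 → ℝ := ![-3, -5, -1, -5, -9, 0, 9, 5, 1, 5, 3]

theorem key (i j : Fin 11) (hij : i ≠ j) : U i * X j + V i * Y j < U i * X i + V i * Y i := by
  have h1 := a_lo
  have h2 := a_hi
  have h3 := b_lo
  have h4 := b_hi
  have h5 := g_lo
  have h6 := g_hi
  have h7 := h_lo
  have h8 := h_hi
  have h9 := s_lo
  have h10 := s_hi
  fin_cases i <;> fin_cases j <;> first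
    | exact absurd rfl hij
    | (simp only [U, V, X, Y, Fin.zero_eta, Fin.mk_one, Fin.reduceFinMk, Matrix.cons_val]
       linarith)

theorem dist_P {i j : Fin 11} {d : ℝ} (hd : 0 ≤ d)
    (h : (X i - X j) ^ 2 + (Y i - Y j) ^ 2 = d ^ 2) : dist (P i) (P j) = d := by
  rw [EuclideanSpace.dist_eq, Fin.sum_univ_two]
  simp only [P, Real.dist_eq, sq_abs]
  show √((X i - X j) ^ 2 + (Y i - Y j) ^ 2) = d
  rw [h]
  exact Real.sqrt_sq hd

theorem P_inj : Function.Injective P := by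
  intro i j hij
  by_contra hne
  have h1 := key i j hne
  have hX : X i = X j := congrArg (fun p : Plane => p 0) hij
  have hY : Y i = Y j := congrArg (fun p : Plane => p 1) hij
  rw [hX, hY] at h1
  exact lt_irrefl _ h1

/-- Pairs of indices of vertices at distance one. -/
def E₁ : Finset (Fin 11 × Fin 11) :=
  {(0, 1), (1, 0), (0, 10), (10, 0), (1, 2), (2, 1), (2, 3), (3, 2), (3, 4), (4, 3), (4, 5), (5, 4), (4, 6), (6, 4), (5, 6), (6, 5), (6, 7), (7, 6), (7, 8), (8, 7), (8, 9), (9, 8), (9, 10), (10, 9)}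

/-- Pairs of indices of vertices at distance `2 * a`. -/
def E₂ : Finset (Fin 11 × Fin 11) :=
  {(0, 2), (2, 0), (1, 3), (3, 1), (1, 8), (8, 1), (2, 4), (4, 2), (2, 7), (7, 2), (2, 9), (9, 2), (3, 5), (5, 3), (3, 8), (8, 3), (5, 7), (7, 5), (6, 8), (8, 6), (7, 9), (9, 7), (8, 10), (10, 8)}

theorem dist_one : ∀ e ∈ E₁, dist (P e.1) (P e.2) = 1 := by
  have h1 := R1
  have h2 := R2
  have h6 := R6
  rintro ⟨i, j⟩ he
  apply dist_P zero_le_one
  simp only [E₁, Finset.mem_insert, Finset.mem_singleton, Prod.mk.injEq] at he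
  rcases he with ⟨rfl, rfl⟩ | ⟨rfl, rfl⟩ | ⟨rfl, rfl⟩ | ⟨rfl, rfl⟩ | ⟨rfl, rfl⟩ | ⟨rfl, rfl⟩ |
    ⟨rfl, rfl⟩ | ⟨rfl, rfl⟩ | ⟨rfl, rfl⟩ | ⟨rfl, rfl⟩ | ⟨rfl, rfl⟩ | ⟨rfl, rfl⟩ |
    ⟨rfl, rfl⟩ | ⟨rfl, rfl⟩ | ⟨rfl, rfl⟩ | ⟨rfl, rfl⟩ | ⟨rfl, rfl⟩ | ⟨rfl, rfl⟩ |
    ⟨rfl, rfl⟩ | ⟨rfl, rfl⟩ | ⟨rfl, rfl⟩ | ⟨rfl, rfl⟩ | ⟨rfl, rfl⟩ | ⟨rfl, rfl⟩ <;>
  simp only [X, Y, Matrix.cons_val] <;> first
    | linear_combination h1
    | linear_combination h2
    | linear_combination h6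
    | norm_num

theorem dist_two : ∀ e ∈ E₂, dist (P e.1) (P e.2) = 2 * a := by
  have h3 := R3
  have h4 := R4
  have h5 := R5
  rintro ⟨i, j⟩ he
  apply dist_P (by linarith [a_lo])
  simp only [E₂, Finset.mem_insert, Finset.mem_singleton, Prod.mk.injEq] at he
  rcases he with ⟨rfl, rfl⟩ | ⟨rfl, rfl⟩ | ⟨rfl, rfl⟩ | ⟨rfl, rfl⟩ | ⟨rfl, rfl⟩ | ⟨rfl, rfl⟩ |
    ⟨rfl, rfl⟩ | ⟨rfl, rfl⟩ | ⟨rfl, rfl⟩ | ⟨rfl, rfl⟩ | ⟨rfl, rfl⟩ | ⟨rfl, rfl⟩ |
    ⟨rfl, rfl⟩ | ⟨rfl, rfl⟩ | ⟨rfl, rfl⟩ | ⟨rfl, rfl⟩ | ⟨rfl, rfl⟩ | ⟨rfl, rfl⟩ |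
    ⟨rfl, rfl⟩ | ⟨rfl, rfl⟩ | ⟨rfl, rfl⟩ | ⟨rfl, rfl⟩ | ⟨rfl, rfl⟩ | ⟨rfl, rfl⟩ <;>
  simp only [X, Y, Matrix.cons_val] <;> first
    | linear_combination h3
    | linear_combination h4
    | linear_combination h5
    | ring

/-- The eleven vertices. -/
noncomputable def C : Finset Plane := Finset.univ.map ⟨P, P_inj⟩

theorem C_convex : IsConvexPolygon 11 C := by
  refine ⟨by simp [C], ?_⟩
  intro p hp
  simp only [C, Finset.mem_map, Finset.mem_univ, true_and, Function.Embedding.coeFn_mk] at hp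
  obtain ⟨i, rfl⟩ := hp
  refine not_mem_hull (U i) (V i) ?_
  rintro q ⟨hq, hne⟩
  simp only [C, Finset.coe_map, Function.Embedding.coeFn_mk, Finset.coe_univ, Set.image_univ,
    Set.mem_range] at hq
  obtain ⟨j, rfl⟩ := hq
  have hij : i ≠ j := by
    rintro rfl
    exact hne rfl
  exact key i j hij

theorem mult_ge {E : Finset (Fin 11 × Fin 11)} {d : ℝ} (hd : ∀ e ∈ E, dist (P e.1) (P e.2) = d)
    (hE : ∀ e ∈ E, e.1 ≠ e.2) : E.card / 2 ≤ mult C d := by
  classical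
  unfold mult
  apply Nat.div_le_div_right
  apply Finset.card_le_card_of_injOn (fun e => (P e.1, P e.2))
  · intro e he
    simp only [Finset.coe_filter, Finset.mem_offDiag, Set.mem_ofPred_eq]
    refine ⟨⟨?_, ?_, ?_⟩, hd e he⟩
    · simp [C]
    · simp [C]
    · intro h
      exact hE e he (P_inj h)
  · intro e _ f _ hef
    simp only [Prod.mk.injEq] at hef
    exact Prod.ext (P_inj hef.1) (P_inj hef.2)

set_option maxRecDepth 10000 in
theorem twelve_one : 12 ≤ mult C 1 := by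
  have h := mult_ge dist_one (by decide)
  have : E₁.card = 24 := by decide
  rw [this] at h
  exact h

set_option maxRecDepth 10000 in
theorem twelve_two : 12 ≤ mult C (2 * a) := by
  have h := mult_ge dist_two (by decide)
  have : E₂.card = 24 := by decide
  rw [this] at h
  exact h

/-- Some convex polygon with eleven vertices has two different distances occurring at least
twelve times each. -/
theorem eleven : 11 < r₂ 11 :=
  le_r₂ C_convex (d₁ := 1) (d₂ := 2 * a) (by linarith [a_lo] : (1 : ℝ) < 2 * a).ne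
    twelve_one twelve_two

end Pool.Agent.Helper14.Poly
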